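import Pool.Agent.R520.Gap

set_option autoImplicit false

/-!
# The balanced digraphs with Laplacian spread one

They are exactly the digraphs without digons all of whose outdegrees and indegrees are `(n - 2) / 2`, for the even
orders `n ≥ 4` (the balanced orientations of a complete graph without a perfect matching), and their complements.
-/

namespace Pool.Agent.Results.MP_436edf_co.SpreadOne

open Pool.Agent.R520

/-- There are no digons, and all outdegrees and indegrees are `(n - 2) / 2`. -/
def HalfRegular {V : Type} [Fintype V] (Γ : V → V → Prop) : Prop :=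
  (∀ i j, Γ i j → ¬ Γ j i) ∧
    ∀ i, outdeg Γ i = (Fintype.card V - 2) / 2 ∧ indeg Γ i = (Fintype.card V - 2) / 2

lemma cocktail_iff {V : Type} [Fintype V] [DecidableEq V] (Γ : V → V → Prop) (hn : 3 ≤ Fintype.card V) :
    Cocktail Γ ↔ Even (Fintype.card V) ∧ 4 ≤ Fintype.card V ∧ HalfRegular Γ := by
  constructor
  · rintro ⟨h1, h2⟩
    obtain ⟨i⟩ : Nonempty V := Fintype.card_pos_iff.1 (by omega)
    have h3 := h2 i
    refine ⟨⟨outdeg Γ i + 1, by omega⟩, by omega, h1, fun j => ?_⟩
    have h4 := h2 j
    omega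
  · rintro ⟨⟨k, hk⟩, h0, h1, h2⟩
    refine ⟨h1, fun i => ?_⟩
    have h4 := h2 i
    omega

/-- A balanced digraph `Γ` of order `n ≥ 3` has Laplacian spread `1` if and only if `n ≥ 4` is even and `Γ` or its
complement is a digraph without digons all of whose outdegrees and indegrees are `(n - 2) / 2`. -/
theorem result (V : Type) [Fintype V] [DecidableEq V] (Γ : V → V → Prop) (hn : 3 ≤ Fintype.card V)
    (hloop : ∀ i, ¬ Γ i i) (hbal : ∀ i, outdeg Γ i = indeg Γ i) :
    spread Γ = 1 ↔
      Even (Fintype.card V) ∧ 4 ≤ Fintype.card V ∧ (HalfRegular Γ ∨ HalfRegular (complement Γ)) := by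
  constructor
  · intro h
    rcases cocktail_of_spread Γ hloop hbal (by omega) h.le (by rw [h]; norm_num) with h1 | h1
    · rw [cocktail_iff Γ hn] at h1
      exact ⟨h1.1, h1.2.1, Or.inl h1.2.2⟩
    · rw [cocktail_iff (complement Γ) hn] at h1
      exact ⟨h1.1, h1.2.1, Or.inr h1.2.2⟩
  · rintro ⟨h1, h2, h3 | h3⟩
    · exact spread_of_cocktail Γ hloop hn ((cocktail_iff Γ hn).2 ⟨h1, h2, h3⟩)
    · rw [← spread_compl Γ hloop (by omega)]
      exact spread_of_cocktail (complement Γ) (compl_loopless Γ) hn ((cocktail_iff (complement Γ) hn).2 ⟨h1, h2, h3⟩)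

end Pool.Agent.Results.MP_436edf_co.SpreadOne
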